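import Pool.Agent.N236.UB.Stm

/-!
# Project UB (helper236), part PER1 (helper152): the period bound for `|δ| < 1`
-/

set_option autoImplicit false

open Polynomial Finset

namespace Pool.Agent.N152.UB

open Pool.Agent.N236.UB

section basic

variable {L : Type} [Field L] {v : AbsoluteValue L ℝ}

lemma prod_cmp (hna : ∀ x y : L, v (x + y) ≤ max (v x) (v y)) {r : ℝ} (hr : 0 ≤ r) (n : ℕ)
    (f g : ℕ → L) (hf : ∀ i, v (f i) ≤ 1) (hg : ∀ i, v (g i) ≤ 1) (h : ∀ i, v (f i - g i) ≤ r) :
    v (∏ i ∈ range n, f i - ∏ i ∈ range n, g i) ≤ r := by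
  induction n with
  | zero => simpa using hr
  | succ n ih =>
    rw [prod_range_succ, prod_range_succ]
    have e : (∏ i ∈ range n, f i) * f n - (∏ i ∈ range n, g i) * g n =
        (∏ i ∈ range n, f i - ∏ i ∈ range n, g i) * f n + (∏ i ∈ range n, g i) * (f n - g n) := by
      ring
    rw [e]
    refine (hna _ _).trans (max_le ?_ ?_)
    · rw [map_mul]
      calc v (∏ i ∈ range n, f i - ∏ i ∈ range n, g i) * v (f n) ≤ r * 1 :=
            mul_le_mul ih (hf n) (v.nonneg _) hr
        _ = r := mul_one r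
    · have h2 : v (∏ i ∈ range n, g i) ≤ 1 := by
        rw [map_prod]
        exact prod_le_one (fun i _ => v.nonneg _) fun i _ => hg i
      rw [map_mul]
      calc v (∏ i ∈ range n, g i) * v (f n - g n) ≤ 1 * r :=
            mul_le_mul h2 (h n) (v.nonneg _) zero_le_one
        _ = r := one_mul r

/-- a product over `i` blocks -/
lemma prod_blocks (hna : ∀ x y : L, v (x + y) ≤ max (v x) (v y)) {r : ℝ} (hr : 0 ≤ r)
    (ρ : ℤ → L) (hρ : ∀ n, v (ρ n) ≤ 1) (M : ℕ)
    (h : ∀ (t : ℕ) (n : ℤ), v (ρ (n + t * M) - ρ n) ≤ r) (i : ℕ) :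
    v (∏ s ∈ range (i * M), ρ s - (∏ s ∈ range M, ρ s) ^ i) ≤ r := by
  induction i with
  | zero => simpa using hr
  | succ i ih =>
    have hP : v (∏ s ∈ range M, ρ s) ≤ 1 := by
      rw [map_prod]
      exact prod_le_one (fun i _ => v.nonneg _) fun i _ => hρ _
    have hP2 : v (∏ s ∈ range (i * M), ρ s) ≤ 1 := by
      rw [map_prod]
      exact prod_le_one (fun i _ => v.nonneg _) fun i _ => hρ _
    rw [add_mul, one_mul, prod_range_add, pow_succ]
    have h2 : v (∏ x ∈ range M, ρ ((i * M + x : ℕ) : ℤ) - ∏ s ∈ range M, ρ s) ≤ r := by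
      refine prod_cmp hna hr M (fun x => ρ ((i * M + x : ℕ) : ℤ)) (fun x => ρ x)
        (fun _ => hρ _) (fun _ => hρ _) fun x => ?_
      have h3 := h i x
      have e : ((i * M + x : ℕ) : ℤ) = (x : ℤ) + i * M := by push_cast; ring
      rw [e]
      exact h3
    have e : (∏ s ∈ range (i * M), ρ s) * (∏ x ∈ range M, ρ ((i * M + x : ℕ) : ℤ)) -
        (∏ s ∈ range M, ρ s) ^ i * (∏ s ∈ range M, ρ s) =
        (∏ s ∈ range (i * M), ρ s) * (∏ x ∈ range M, ρ ((i * M + x : ℕ) : ℤ) - ∏ s ∈ range M, ρ s) +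
        (∏ s ∈ range (i * M), ρ s - (∏ s ∈ range M, ρ s) ^ i) * (∏ s ∈ range M, ρ s) := by
      ring
    rw [e]
    refine (hna _ _).trans (max_le ?_ ?_)
    · rw [map_mul]
      calc _ ≤ 1 * r := mul_le_mul hP2 h2 (v.nonneg _) zero_le_one
        _ = r := one_mul r
    · rw [map_mul]
      calc _ ≤ r * 1 := mul_le_mul ih hP (v.nonneg _) hr
        _ = r := mul_one r

/-- two solutions of the recursion of the ratios -/
lemma rho_cmp (hna : ∀ x y : L, v (x + y) ≤ max (v x) (v y)) {δ : L} (hδ : v δ < 1)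
    (ρ ρ' κ κ' : ℤ → L) (h1 : ∀ n, v (ρ n) = 1) (h1' : ∀ n, v (ρ' n) = 1)
    (hr : ∀ n, ρ n = κ n - δ / ρ (n - 1)) (hr' : ∀ n, ρ' n = κ' n - δ / ρ' (n - 1)) {r : ℝ}
    (hr0 : 0 ≤ r) (hκ : ∀ n, v (κ n - κ' n) ≤ r) (n : ℤ) : v (ρ n - ρ' n) ≤ r := by
  have key : ∀ (k : ℕ) (n : ℤ), v (ρ n - ρ' n) ≤ max r (v δ ^ k) := by
    intro k
    induction k with
    | zero =>
      intro n
      rw [pow_zero]
      have h := hna (ρ n) (-ρ' n)
      rw [← sub_eq_add_neg, v.map_neg, h1, h1', max_self] at h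
      exact h.trans (le_max_right _ _)
    | succ k ih =>
      intro n
      have z1 : ρ (n - 1) ≠ 0 := by
        intro h
        have := h1 (n - 1)
        rw [h, v.map_zero] at this
        exact zero_ne_one this
      have z2 : ρ' (n - 1) ≠ 0 := by
        intro h
        have := h1' (n - 1)
        rw [h, v.map_zero] at this
        exact zero_ne_one this
      have e : ρ n - ρ' n = (κ n - κ' n) + δ * ((ρ (n - 1) - ρ' (n - 1)) / (ρ (n - 1) * ρ' (n - 1))) := by
        rw [hr n, hr' n]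
        field_simp
        ring
      rw [e]
      refine (hna _ _).trans (max_le ((hκ n).trans (le_max_left _ _)) ?_)
      rw [map_mul, map_div₀, map_mul, h1, h1', mul_one, div_one]
      have h2 := ih (n - 1)
      rcases le_total r (v δ ^ k) with h3 | h3
      · rw [max_eq_right h3] at h2
        refine le_trans ?_ (le_max_right _ _)
        rw [pow_succ']
        exact mul_le_mul_of_nonneg_left h2 (v.nonneg _)
      · rw [max_eq_left h3] at h2
        refine le_trans ?_ (le_max_left _ _)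
        calc v δ * v (ρ (n - 1) - ρ' (n - 1)) ≤ 1 * r :=
              mul_le_mul hδ.le h2 (v.nonneg _) zero_le_one
          _ = r := one_mul r
  by_contra hcon
  push Not at hcon
  have hpos : 0 < v (ρ n - ρ' n) := hr0.trans_lt hcon
  obtain ⟨k, hk⟩ := exists_pow_lt_of_lt_one hpos hδ
  exact absurd (key k n) (not_le.2 (max_lt hcon hk))

lemma tele (f : ℤ → L) (hf : ∀ n, f n ≠ 0) (k : ℕ) :
    ∏ s ∈ range k, f ((s : ℤ) + 1) / f s = f k / f 0 := by
  induction k with
  | zero =>
    rw [range_zero, prod_empty, Nat.cast_zero, div_self (hf 0)]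
  | succ k ih =>
    rw [prod_range_succ, ih]
    have h1 := hf k
    have h2 := hf 0
    push_cast
    field_simp

end basic

section seq

variable {L : Type} [Field L] (v : AbsoluteValue L ℝ) (G : L[X]) (δ : L) (y : ℤ → L) (N : ℕ)

/-- the displacement -/
def D (M : ℕ) (n : ℤ) : L := y (n + M) - y n

/-- the multiplier -/
noncomputable def kap (M : ℕ) (n : ℤ) : L := dd G (y (n + M)) (y n)

variable {v G δ y N}

lemma D_rec (hdd : ∀ x y : L, G.eval x - G.eval y = dd G x y * (x - y)) (hRec : Rec G δ y) (M : ℕ)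
    (n : ℤ) : D y M (n + 1) = kap G y M n * D y M n - δ * D y M (n - 1) := by
  have h1 := hRec n
  have h2 := hRec (n + M)
  have h3 := hdd (y (n + M)) (y n)
  have e1 : n + 1 + (M : ℤ) = n + M + 1 := by ring
  have e2 : n - 1 + (M : ℤ) = n + M - 1 := by ring
  unfold D kap
  rw [e1, e2]
  linear_combination h2 - h1 + h3

lemma per_int {α : Type} {f : ℤ → α} (h : ∀ n : ℤ, f (n + N) = f n) (n k : ℤ) : f (n + k * N) = f n := by
  have hp : Function.Periodic f (N : ℤ) := h
  exact hp.int_mul k n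

/-- all the displacements have the same absolute value -/
lemma D_const (hna : ∀ x y : L, v (x + y) ≤ max (v x) (v y))
    (hdd : ∀ x y : L, G.eval x - G.eval y = dd G x y * (x - y)) (hRec : Rec G δ y) (hδ : v δ < 1)
    (hN : 1 ≤ N) (hPer : Per y N) (M : ℕ) (hκ : ∀ n, v (kap G y M n) ≤ 1) (n n' : ℤ) :
    v (D y M n) = v (D y M n') := by
  have hDP : ∀ n : ℤ, D y M (n + N) = D y M n := by
    intro n
    unfold D
    have e1 : n + N + (M : ℤ) = n + M + N := by ring
    rw [e1, hPer, hPer]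
  obtain ⟨i0, -, hi0⟩ := exists_max_image (range N) (fun i : ℕ => v (D y M i)) ⟨0, by rw [mem_range]; omega⟩
  have hN0 : (0 : ℤ) < N := by exact_mod_cast hN
  have hmax : ∀ n : ℤ, v (D y M n) ≤ v (D y M i0) := by
    intro n
    have h1 := per_int hDP (n % N) (n / N)
    have e1 : n % N + n / N * N = n := by
      rw [mul_comm]
      exact Int.emod_add_mul_ediv n N
    rw [e1] at h1
    rw [h1]
    have h2 := Int.emod_nonneg n hN0.ne'
    have h3 := Int.emod_lt_of_pos n hN0
    have h4 := hi0 (n % N).toNat (by rw [mem_range]; omega)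
    rwa [Int.toNat_of_nonneg h2] at h4
  set E := v (D y M i0) with hE
  have hE0 : 0 ≤ E := v.nonneg _
  have hall : ∀ n : ℤ, v (D y M n) = E := by
    rcases hE0.eq_or_lt with h0 | h0
    · intro n
      exact le_antisymm (hmax n) (h0 ▸ v.nonneg _)
    have back : ∀ n : ℤ, v (D y M n) = E → v (D y M (n - 1)) = E := by
      intro n hn
      have h1 := D_rec hdd hRec M (n - 1)
      rw [sub_add_cancel] at h1
      refine le_antisymm (hmax _) ?_
      by_contra hcon
      push Not at hcon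
      have h2 : v (D y M n) < E := by
        rw [h1, sub_eq_add_neg]
        refine (hna _ _).trans_lt (max_lt ?_ ?_)
        · rw [map_mul]
          calc _ ≤ 1 * v (D y M (n - 1)) := mul_le_mul_of_nonneg_right (hκ _) (v.nonneg _)
            _ < E := by rw [one_mul]; exact hcon
        · rw [v.map_neg, map_mul]
          calc v δ * v (D y M (n - 1 - 1)) ≤ v δ * E := mul_le_mul_of_nonneg_left (hmax _) (v.nonneg _)
            _ < 1 * E := mul_lt_mul_of_pos_right hδ h0
            _ = E := one_mul E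
      exact absurd hn h2.ne
    have back2 : ∀ k : ℕ, v (D y M (i0 - k)) = E := by
      intro k
      induction k with
      | zero => simp [hE]
      | succ k ih =>
        have h1 := back _ ih
        have e1 : (i0 : ℤ) - k - 1 = i0 - (k + 1 : ℕ) := by push_cast; ring
        rwa [e1] at h1
    intro n
    have h1 := per_int hDP n (-(|n| : ℤ))
    have h2 : 0 ≤ (i0 : ℤ) - (n + -|n| * N) := by
      have h3 : |n| * 1 ≤ |n| * (N : ℤ) := mul_le_mul_of_nonneg_left (by omega) (abs_nonneg n)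
      have h4 := le_abs_self n
      have h5 : (0 : ℤ) ≤ i0 := Int.natCast_nonneg _
      nlinarith
    obtain ⟨k, hk⟩ := Int.eq_ofNat_of_zero_le h2
    have h3 := back2 k
    rw [← h1]
    have e1 : n + -|n| * (N : ℤ) = i0 - k := by rw [← hk]; ring
    rw [e1]
    exact h3
  rw [hall n, hall n']

/-- displacements of multiples -/
lemma mult_le (hna : ∀ x y : L, v (x + y) ≤ max (v x) (v y)) (M : ℕ) {r : ℝ} (hr : 0 ≤ r)
    (h : ∀ n, v (D y M n) ≤ r) (t : ℕ) (n : ℤ) : v (y (n + t * M) - y n) ≤ r := by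
  induction t with
  | zero => simpa using hr
  | succ t ih =>
    have e : y (n + (t + 1 : ℕ) * M) - y n = D y M (n + t * M) + (y (n + t * M) - y n) := by
      unfold D
      have e1 : n + ((t + 1 : ℕ) : ℤ) * M = n + t * M + M := by push_cast; ring
      rw [e1]
      ring
    rw [e]
    exact (hna _ _).trans (max_le (h _) ih)

lemma mult_sum (M : ℕ) (i : ℕ) : y (i * M) - y 0 = ∑ t ∈ range i, D y M (t * M) := by
  induction i with
  | zero => simp
  | succ i ih =>
    rw [sum_range_succ, ← ih]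
    unfold D
    have e1 : ((i + 1 : ℕ) : ℤ) * M = i * M + M := by push_cast; ring
    rw [e1]
    ring

end seq

open Classical in
/-- **PER1** -/
theorem t_per1 (hDD : S_DD) (hPIG : S_PIG) (hABS : S_ABS) (hGL : S_GL) : S_PER1 := by
  intro L _ v p q e hL hp G δ y N hG hδ hN hPer hy hRec
  have hna := hL.1
  obtain ⟨hdd, hdd2⟩ := hDD L v p q e hL G
  obtain ⟨hdd3, hdd4⟩ := hdd2 hG
  obtain ⟨m, hm1, hm2, hm3⟩ := hPIG L v p q e hL G δ y N hG hδ.le hN hPer hy hRec
  have hκ : ∀ (M : ℕ) (n : ℤ), v (kap G y M n) ≤ 1 := fun M n => hdd3 _ _ (hy _) (hy _)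
  have hconst : ∀ (M : ℕ) (n : ℤ), v (D y M n) = v (D y M 0) := fun M n =>
    D_const hna hdd hRec hδ hN hPer M (hκ M) n 0
  have hgl : 1 ≤ gl q := by
    obtain ⟨-, -, -, O, k, _, _, red, -, -, -, hcard⟩ := hL
    have h1 : 1 < Fintype.card k := Fintype.one_lt_card
    rw [hcard] at h1
    unfold gl
    have h2 : 1 ≤ q ^ 2 - 1 := by
      have : 2 ^ 2 ≤ q ^ 2 := Nat.pow_le_pow_left h1 2
      omega
    have h3 : 1 ≤ q ^ 2 - q := by
      have : q * 2 ≤ q * q := Nat.mul_le_mul_left q h1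
      rw [sq]
      omega
    exact Nat.mul_pos h2 h3
  -- the ratios
  obtain ⟨ρ, hρdef⟩ : ∃ ρ : ℕ → ℤ → L, ∀ M n, ρ M n = D y M (n + 1) / D y M n := ⟨_, fun _ _ => rfl⟩
  have hne : ∀ M : ℕ, D y M 0 ≠ 0 → ∀ n, D y M n ≠ 0 := by
    intro M h0 n hn
    have h1 := hconst M n
    rw [hn, v.map_zero] at h1
    exact h0 ((v.eq_zero).1 h1.symm)
  have hρ1 : ∀ M : ℕ, D y M 0 ≠ 0 → ∀ n, v (ρ M n) = 1 := by
    intro M h0 n
    rw [hρdef, map_div₀, hconst M (n + 1), hconst M n]
    exact div_self ((v.ne_zero_iff).2 h0)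
  have hρr : ∀ M : ℕ, D y M 0 ≠ 0 → ∀ n, ρ M n = kap G y M n - δ / ρ M (n - 1) := by
    intro M h0 n
    have z1 := hne M h0 n
    have z2 := hne M h0 (n - 1)
    have h1 := D_rec hdd hRec M n
    rw [hρdef, hρdef, sub_add_cancel, h1]
    field_simp
  -- the differences of the multipliers
  have hshift : ∀ M : ℕ, D y M 0 ≠ 0 → ∀ (t : ℕ) (n : ℤ), v (ρ M (n + t * M) - ρ M n) ≤ v (D y M 0) := by
    intro M h0 t n
    have h1 := rho_cmp hna hδ (fun n => ρ M (n + t * M)) (ρ M) (fun n => kap G y M (n + t * M))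
      (kap G y M) (fun n => hρ1 M h0 _) (hρ1 M h0) (fun n => ?_) (hρr M h0) (v.nonneg (D y M 0))
      (fun n => ?_) n
    · exact h1
    · have h2 := hρr M h0 (n + t * M)
      have e1 : n + (t : ℤ) * M - 1 = n - 1 + t * M := by ring
      rw [e1] at h2
      exact h2
    · refine (hdd4 _ _ _ _ (hy _) (hy _) (hy _) (hy _)).trans (max_le ?_ ?_)
      · have h2 := mult_le hna M (v.nonneg (D y M 0)) (fun n => (hconst M n).le) t (n + M)
        have e1 : n + (M : ℤ) + t * M = n + t * M + M := by ring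
        rw [e1] at h2
        exact h2
      · exact mult_le hna M (v.nonneg (D y M 0)) (fun n => (hconst M n).le) t n
  have hcmp : ∀ (M i : ℕ), 1 ≤ i → D y M 0 ≠ 0 → D y (i * M) 0 ≠ 0 → ∀ n : ℤ,
      v (ρ (i * M) n - ρ M n) ≤ v (D y M 0) := by
    intro M i hi h0 h0' n
    refine rho_cmp hna hδ (ρ (i * M)) (ρ M) (kap G y (i * M)) (kap G y M) (hρ1 _ h0') (hρ1 _ h0)
      (hρr _ h0') (hρr _ h0) (v.nonneg (D y M 0)) (fun n => ?_) n
    refine (hdd4 _ _ _ _ (hy _) (hy _) (hy _) (hy _)).trans (max_le ?_ ?_)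
    · have h2 := mult_le hna M (v.nonneg (D y M 0)) (fun n => (hconst M n).le) (i - 1) (n + M)
      have e1 : n + (M : ℤ) + ((i - 1 : ℕ) : ℤ) * M = n + (i * M : ℕ) := by
        rw [Nat.cast_sub hi]
        push_cast
        ring
      rw [e1] at h2
      exact h2
    · rw [sub_self, v.map_zero]
      exact v.nonneg _
  -- the data
  obtain ⟨α, hα⟩ : ∃ α : ℕ → L, ∀ j, α j = if D y (j * m) 0 = 0 then 1 else
      ∏ s ∈ range (j * m), ρ (j * m) s := ⟨_, fun _ => rfl⟩
  have hα1 : ∀ j, v (α j) = 1 := by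
    intro j
    rw [hα]
    split_ifs with h
    · exact v.map_one
    · rw [map_prod]
      exact prod_eq_one fun i _ => hρ1 _ h _
  have hα2 : ∀ j, D y (j * m) 0 ≠ 0 → α j = ∏ s ∈ range (j * m), ρ (j * m) s := by
    intro j h
    rw [hα, if_neg h]
  have htel : ∀ (M k : ℕ), D y M 0 ≠ 0 → D y M k = (∏ s ∈ range k, ρ M s) * D y M 0 := by
    intro M k h0
    have h1 := tele (D y M) (hne M h0) k
    have h2 : ∏ s ∈ range k, ρ M s = ∏ s ∈ range k, D y M ((s : ℤ) + 1) / D y M s :=
      prod_congr rfl fun s _ => hρdef M s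
    rw [h2, h1, div_mul_cancel₀ _ h0]
  have hw0 : ∀ i j : ℕ, D y (j * m) 0 = 0 → ∀ n, y (n + i * (j * m : ℕ)) = y n := by
    intro i j h0 n
    have h1 : ∀ n, v (D y (j * m) n) ≤ 0 := by
      intro n
      rw [hconst, h0, v.map_zero]
    have h2 := mult_le hna (j * m) le_rfl h1 i n
    have h3 := (v.eq_zero).1 (le_antisymm h2 (v.nonneg _))
    exact sub_eq_zero.1 h3
  have hone : ∀ a b : Fin 1, (1 : Matrix (Fin 1) (Fin 1) L) a b = 1 := by
    intro a b
    rw [Subsingleton.elim b a, Matrix.one_apply_eq]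
  have main := hABS L v p q e 1 (gl q) hL hp hgl (fun j _ => D y (j * m) 0)
    (fun j => α j • (1 : Matrix (Fin 1) (Fin 1) L)) ?_ ?_ ?_ ?_ ?_ ?_ ?_
  · -- conclusion
    have h0 : D y (gl q * p ^ (e + 1) * m) 0 = 0 := congrFun main 0
    have hdvd : m ∣ Nat.factorial (q ^ 2) := Nat.dvd_factorial (by omega) hm2
    obtain ⟨c, hc⟩ := hdvd
    intro n
    have h1 := hw0 c (gl q * p ^ (e + 1)) h0 n
    have e1 : ((N0 p q e : ℕ) : ℤ) = c * ((gl q * p ^ (e + 1) * m : ℕ) : ℤ) := by
      unfold N0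
      rw [hc]
      push_cast
      ring
    rw [e1]
    exact h1
  · -- small displacements
    intro j a hj
    have h1 := mult_le hna m (v.nonneg (D y m 0)) (fun n => (hconst m n).le) j 0
    have h2 : v (D y m 0) < 1 := by
      have := hm3 0
      exact this
    have e1 : D y (j * m) 0 = y (0 + j * m) - y 0 := by
      unfold D
      push_cast
      rfl
    show v (D y (j * m) 0) < 1
    rw [e1]
    exact h1.trans_lt h2
  · -- integrality
    intro j a b hj
    rw [Matrix.smul_apply, hone, smul_eq_mul, mul_one, hα1]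
  · -- the power
    intro h a b
    have h1 := (hGL L v p q e hL).2 (α 1) (hα1 1)
    rw [_root_.smul_pow, one_pow, Matrix.sub_apply, Matrix.smul_apply, hone, smul_eq_mul, mul_one]
    exact h1
  · -- multiples of periods
    intro i j hi hj h
    have h0 : D y (j * m) 0 = 0 := congrFun h 0
    funext a
    show D y (i * j * m) 0 = 0
    have h1 := hw0 i j h0 0
    unfold D
    have e1 : (0 : ℤ) + ((i * j * m : ℕ) : ℤ) = 0 + i * ((j * m : ℕ) : ℤ) := by push_cast; ring
    rw [e1, h1, sub_self]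
  · -- displacement of multiples
    intro i j hi hj h r hr a
    have h0 : D y (j * m) 0 ≠ 0 := fun h' => h (funext fun _ => h')
    have hr' : v (D y (j * m) 0) ≤ r := hr 0
    have hr0 : 0 ≤ r := (v.nonneg _).trans hr'
    have e2 : (∑ t ∈ range i, (α j • (1 : Matrix (Fin 1) (Fin 1) L)) ^ t) =
        (∑ t ∈ range i, α j ^ t) • (1 : Matrix (Fin 1) (Fin 1) L) := by
      rw [sum_smul]
      refine sum_congr rfl fun t _ => ?_
      rw [_root_.smul_pow, one_pow]
    show v (((fun _ : Fin 1 => D y (i * j * m) 0) -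
      (∑ t ∈ range i, (α j • (1 : Matrix (Fin 1) (Fin 1) L)) ^ t).mulVec
        (fun _ : Fin 1 => D y (j * m) 0)) a) ≤ r * r
    rw [e2, Matrix.smul_mulVec, Matrix.one_mulVec, Pi.sub_apply, Pi.smul_apply, smul_eq_mul]
    have e3 : D y (i * j * m) 0 = ∑ t ∈ range i, D y (j * m) (t * (j * m : ℕ)) := by
      rw [← mult_sum]
      unfold D
      rw [zero_add]
      congr 2
      push_cast
      ring
    rw [e3, sum_mul, ← sum_sub_distrib]
    have hterm : ∀ t : ℕ, v (D y (j * m) (t * (j * m : ℕ)) - α j ^ t * D y (j * m) 0) ≤ r * r := by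
      intro t
      have h1 := htel (j * m) (t * (j * m)) h0
      have e4 : ((t * (j * m) : ℕ) : ℤ) = t * (j * m : ℕ) := by push_cast; ring
      rw [← e4, h1, hα2 j h0, ← sub_mul, map_mul]
      have h2 := prod_blocks hna (v.nonneg (D y (j * m) 0)) (ρ (j * m)) (fun n => (hρ1 _ h0 n).le)
        (j * m) (hshift (j * m) h0) t
      exact mul_le_mul (h2.trans hr') hr' (v.nonneg _) hr0
    clear e3 e2
    induction i with
    | zero => simpa using mul_nonneg hr0 hr0
    | succ i ih =>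
      rw [sum_range_succ]
      refine (hna _ _).trans (max_le ?_ (hterm i))
      rcases Nat.eq_zero_or_pos i with rfl | hi'
      · simpa using mul_nonneg hr0 hr0
      · exact ih hi'
  · -- derivative of multiples
    intro i j hi hj h r hr a b
    have h0' : D y (i * j * m) 0 ≠ 0 := fun h' => h (funext fun _ => h')
    have h0 : D y (j * m) 0 ≠ 0 := by
      intro h1
      apply h0'
      have h2 := hw0 i j h1 0
      unfold D
      have e1 : (0 : ℤ) + ((i * j * m : ℕ) : ℤ) = 0 + i * ((j * m : ℕ) : ℤ) := by push_cast; ring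
      rw [e1, h2, sub_self]
    have hr' : v (D y (j * m) 0) ≤ r := hr 0
    have e1 : (α (i * j) • (1 : Matrix (Fin 1) (Fin 1) L) - (α j • (1 : Matrix (Fin 1) (Fin 1) L)) ^ i) a b =
        α (i * j) - α j ^ i := by
      rw [_root_.smul_pow, one_pow, Matrix.sub_apply, Matrix.smul_apply, Matrix.smul_apply, hone,
        smul_eq_mul, smul_eq_mul, mul_one, mul_one]
    show v ((α (i * j) • (1 : Matrix (Fin 1) (Fin 1) L) -
      (α j • (1 : Matrix (Fin 1) (Fin 1) L)) ^ i) a b) ≤ r
    rw [e1, hα2 _ h0', hα2 _ h0]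
    have e2 : i * j * m = i * (j * m) := mul_assoc _ _ _
    rw [e2] at h0' ⊢
    have h1 := prod_cmp hna (v.nonneg (D y (j * m) 0)) (i * (j * m)) (fun s => ρ (i * (j * m)) s)
      (fun s => ρ (j * m) s) (fun s => (hρ1 _ h0' s).le) (fun s => (hρ1 _ h0 s).le)
      (fun s => hcmp (j * m) i hi h0 h0' s)
    have h2 := prod_blocks hna (v.nonneg (D y (j * m) 0)) (ρ (j * m)) (fun n => (hρ1 _ h0 n).le)
      (j * m) (hshift (j * m) h0) i
    have e3 : ∏ s ∈ range (i * (j * m)), ρ (i * (j * m)) s - (∏ s ∈ range (j * m), ρ (j * m) s) ^ i =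
        (∏ s ∈ range (i * (j * m)), ρ (i * (j * m)) s - ∏ s ∈ range (i * (j * m)), ρ (j * m) s) +
        (∏ s ∈ range (i * (j * m)), ρ (j * m) s - (∏ s ∈ range (j * m), ρ (j * m) s) ^ i) := by
      ring
    rw [e3]
    exact (hna _ _).trans (max_le (h1.trans hr') (h2.trans hr'))
  · -- a period
    refine ⟨N, hN, ?_⟩
    funext a
    show D y (N * m) 0 = 0
    unfold D
    have e1 : (0 : ℤ) + ((N * m : ℕ) : ℤ) = 0 + (m : ℤ) * N := by push_cast; ring
    rw [e1, per_int hPer, sub_self]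

end Pool.Agent.N152.UB
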